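import Pool.Agent.H41.T1.S5

/-!
# T1, CTTK: the trivial bound for the number of pairs
-/

set_option autoImplicit false

namespace Pool.T1

open Polynomial Matrix Pool.HYP Pool.TOW Pool.AVS IsDedekindDomain

/-- CTTK: the pairs are pairs of symmetric matrices with bounded entries. -/
theorem cttk (hS : CTSKStmt) : CTTKStmt := by
  intro R _ _ K _ _ O π hU g D h d
  obtain ⟨f1, n1⟩ := hS R K O π hU (2 * g + 1) (fun i j => d i + d j)
  obtain ⟨f2, n2⟩ := hS R K O π hU (2 * g + 1) (fun i j => d i + d j + h)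
  have hsub : PPK π g D h d ⊆
      {G : Matrix (Fin (2 * g + 1)) (Fin (2 * g + 1)) R |
        Gᵀ = G ∧ ∀ i j, G i j ∈ Lm R O π ((fun i j => d i + d j) i j)} ×ˢ
      {G : Matrix (Fin (2 * g + 1)) (Fin (2 * g + 1)) R |
        Gᵀ = G ∧ ∀ i j, G i j ∈ Lm R O π ((fun i j => d i + d j + h) i j)} := by
    rintro ⟨G, S⟩ ⟨f, -, h1, h2, h3, h4, -⟩
    exact ⟨⟨h1, h3⟩, ⟨h2, h4⟩⟩
  refine ⟨(f1.prod f2).subset hsub, ?_⟩
  calc (PPK π g D h d).ncard ≤ _ := Set.ncard_le_ncard hsub (f1.prod f2)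
    _ = _ := Set.ncard_prod
    _ ≤ _ := Nat.mul_le_mul n1 n2
    _ = qq O ^ (EGk d + ESk d h) := (pow_add _ _ _).symm

end Pool.T1
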