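import Pool.Agent.H14.T1.S3
import Pool.Agent.H30.T1.Loc

/-!
# T1, VQB: the elements regular at a prime form a discrete valuation ring
-/

set_option autoImplicit false
set_option linter.overlappingInstances false
set_option linter.unusedSectionVars false

namespace Pool.T1

open Polynomial Matrix Pool.HYP Pool.TOW Pool.AVS IsDedekindDomain

namespace VQB28

section

variable {R : Type} [CommRing R] [IsDedekindDomain R] {K : Type} [Field K] [Algebra R K]
  [IsFractionRing R K] {P : HeightOneSpectrum R} {ϖ : R}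

/-- Outside `P` every ideal not contained in `P` has an element. -/
theorem out {J : Ideal R} (h : ¬ P.asIdeal ∣ J) : ∃ t ∈ J, t ∉ P.asIdeal :=
  SetLike.not_le_iff_exists.1 fun h' => h (Ideal.dvd_iff_le.2 h')

/-- Up to elements outside `P`, every nonzero element is a power of `ϖ`. -/
theorem fac (h1 : ϖ ∈ P.asIdeal) (h2 : ϖ ∉ P.asIdeal ^ 2) {a : R} (ha : a ≠ 0) :
    ∃ (n : ℕ) (t u : R), t ∉ P.asIdeal ∧ u ∉ P.asIdeal ∧ t * a = ϖ ^ n * u := by
  have hI : Ideal.span {a} ≠ (0 : Ideal R) := by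
    rw [Ideal.zero_eq_bot, Ne, Ideal.span_singleton_eq_bot]
    exact ha
  obtain ⟨n, J, hJ, hIJ⟩ := WfDvdMonoid.max_power_factor hI P.irreducible
  obtain ⟨J', hJ'⟩ : P.asIdeal ∣ Ideal.span {ϖ} := by
    rw [Ideal.dvd_iff_le, Ideal.span_singleton_le_iff_mem]
    exact h1
  have h3 : ¬ P.asIdeal ∣ J' := by
    rintro ⟨J'', rfl⟩
    apply h2
    have h4 : ϖ ∈ Ideal.span {ϖ} := Ideal.mem_span_singleton_self ϖ
    have h4' : Ideal.span {ϖ} = P.asIdeal ^ 2 * J'' := by
      rw [hJ', ← mul_assoc, ← pow_two]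
    have h4'' : Ideal.span {ϖ} ≤ P.asIdeal ^ 2 := by
      rw [h4']
      exact Ideal.dvd_iff_le.1 (dvd_mul_right _ _)
    exact h4'' h4
  have h5 : ¬ P.asIdeal ∣ J' ^ n := fun h => h3 (P.prime.dvd_of_dvd_pow h)
  obtain ⟨t, ht, htP⟩ := out h5
  have h6 : t * a ∈ Ideal.span {ϖ ^ n} * J := by
    have h7 : t * a ∈ J' ^ n * Ideal.span {a} :=
      Ideal.mul_mem_mul ht (Ideal.mem_span_singleton_self a)
    rw [hIJ] at h7
    rw [← Ideal.span_singleton_pow, hJ', mul_pow]
    have h8 : J' ^ n * (P.asIdeal ^ n * J) = P.asIdeal ^ n * J' ^ n * J := by ring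
    rw [← h8]
    exact h7
  obtain ⟨u, -, hu⟩ := Ideal.mem_span_singleton_mul.1 h6
  refine ⟨n, t, u, htP, fun huP => ?_, hu.symm⟩
  have h9 : t * a ∈ P.asIdeal ^ (n + 1) := by
    rw [← hu, pow_succ]
    exact Ideal.mul_mem_mul (Ideal.pow_mem_pow h1 n) huP
  have hPp : P.asIdeal.IsPrime := P.isPrime
  rcases Ideal.IsPrime.mul_mem_pow P.asIdeal h9 with h | h
  · exact htP h
  · apply hJ
    have h10 : P.asIdeal ^ (n + 1) ∣ Ideal.span {a} := by
      rw [Ideal.dvd_iff_le, Ideal.span_singleton_le_iff_mem]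
      exact h
    rw [hIJ, pow_succ] at h10
    exact (mul_dvd_mul_iff_left (pow_ne_zero n P.ne_bot)).1 h10

variable (K) in
/-- The valuation ring. -/
theorem unit {t u : R} (ht : t ∉ P.asIdeal) (hu : u ∉ P.asIdeal) :
    UI (RP K P) (algebraMap R K u / algebraMap R K t) := by
  have ht0 : algebraMap R K t ≠ 0 := alg_ne fun h => ht (by rw [h]; exact P.asIdeal.zero_mem)
  have hu0 : algebraMap R K u ≠ 0 := alg_ne fun h => hu (by rw [h]; exact P.asIdeal.zero_mem)
  refine ⟨div_ne_zero hu0 ht0, ?_, ?_⟩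
  · rw [div_eq_mul_inv]
    exact rp_mul (rp_alg u) (rp_inv ht)
  · rw [inv_div, div_eq_mul_inv]
    exact rp_mul (rp_alg t) (rp_inv hu)

theorem ui_mul {x y : K} (hx : UI (RP K P) x) (hy : UI (RP K P) y) : UI (RP K P) (x * y) :=
  ⟨mul_ne_zero hx.1 hy.1, rp_mul hx.2.1 hy.2.1, by
    rw [mul_inv]
    exact rp_mul hx.2.2 hy.2.2⟩

theorem ui_inv {x : K} (hx : UI (RP K P) x) : UI (RP K P) x⁻¹ :=
  ⟨inv_ne_zero hx.1, hx.2.2, by
    rw [inv_inv]
    exact hx.2.1⟩

/-- Every element is a unit times a power of `ϖ`. -/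
theorem val (h1 : ϖ ∈ P.asIdeal) (h2 : ϖ ∉ P.asIdeal ^ 2) {x : K} (hx : x ≠ 0) :
    ∃ n : ℤ, UI (RP K P) (x / algebraMap R K ϖ ^ n) := by
  obtain ⟨a, b, hb, rfl⟩ := IsFractionRing.div_surjective (A := R) x
  have hb0 : b ≠ 0 := nonZeroDivisors.ne_zero hb
  have ha0 : a ≠ 0 := by
    rintro rfl
    rw [map_zero, zero_div] at hx
    exact hx rfl
  have hϖ : algebraMap R K ϖ ≠ 0 := alg_ne fun h => h2 (by rw [h]; exact (P.asIdeal ^ 2).zero_mem)
  obtain ⟨n, t, u, ht, hu, e⟩ := fac h1 h2 ha0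
  obtain ⟨k, t', u', ht', hu', e'⟩ := fac h1 h2 hb0
  have ht0 : algebraMap R K t ≠ 0 := alg_ne fun h => ht (by rw [h]; exact P.asIdeal.zero_mem)
  have ht0' : algebraMap R K t' ≠ 0 := alg_ne fun h => ht' (by rw [h]; exact P.asIdeal.zero_mem)
  have hu0' : algebraMap R K u' ≠ 0 := alg_ne fun h => hu' (by rw [h]; exact P.asIdeal.zero_mem)
  have hbK : algebraMap R K b ≠ 0 := alg_ne hb0
  have e1 : algebraMap R K t * algebraMap R K a = algebraMap R K ϖ ^ n * algebraMap R K u := by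
    rw [← map_mul, e, map_mul, map_pow]
  have e2 : algebraMap R K t' * algebraMap R K b = algebraMap R K ϖ ^ k * algebraMap R K u' := by
    rw [← map_mul, e', map_mul, map_pow]
  refine ⟨(n : ℤ) - k, ?_⟩
  have e3 : algebraMap R K a / algebraMap R K b / algebraMap R K ϖ ^ ((n : ℤ) - k) =
      algebraMap R K u / algebraMap R K t * (algebraMap R K u' / algebraMap R K t')⁻¹ := by
    rw [zpow_sub₀ hϖ, zpow_natCast, zpow_natCast, inv_div, div_mul_div_comm, div_div,
      mul_div_assoc', div_eq_div_iff (div_ne_zero (mul_ne_zero hbK (pow_ne_zero n hϖ))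
        (pow_ne_zero k hϖ)) (mul_ne_zero ht0 hu0'), mul_div_assoc', eq_div_iff (pow_ne_zero k hϖ)]
    linear_combination (algebraMap R K ϖ ^ k * algebraMap R K u') * e1 -
      (algebraMap R K ϖ ^ n * algebraMap R K u) * e2
  rw [e3]
  exact ui_mul (unit K ht hu) (ui_inv (unit K ht' hu'))

theorem zmem {x : K} {n : ℤ} (hn : 0 ≤ n)
    (h : x / algebraMap R K ϖ ^ n ∈ RP K P) (h0 : algebraMap R K ϖ ≠ 0) : x ∈ RP K P := by
  obtain ⟨k, rfl⟩ := Int.eq_ofNat_of_zero_le hn
  have h3 : x = x / algebraMap R K ϖ ^ (k : ℤ) * algebraMap R K (ϖ ^ k) := by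
    rw [map_pow, zpow_natCast, div_mul_cancel₀ _ (pow_ne_zero _ h0)]
  rw [h3]
  exact rp_mul h (rp_alg _)

end

end VQB28

open VQB28

/-- **VQB.** -/
theorem vqb : VQBStmt := by
  intro R _ _ K _ _ _ P ϖ h1 h2
  have hϖ0 : ϖ ≠ 0 := fun h => h2 (by rw [h]; exact (P.asIdeal ^ 2).zero_mem)
  have hϖ : algebraMap R K ϖ ≠ 0 := alg_ne hϖ0
  have hdiv : ∀ a : R, algebraMap R K a / algebraMap R K ϖ ∈ RP K P ↔ a ∈ P.asIdeal := by
    intro a
    constructor
    · rintro ⟨m, hm, b, hb⟩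
      have h3 : algebraMap R K (m * a) = algebraMap R K (b * ϖ) := by
        rw [map_mul, map_mul, ← hb]
        field_simp
      have h4 : m * a = b * ϖ := IsFractionRing.injective R K h3
      have h5 : m * a ∈ P.asIdeal := by
        rw [h4]
        exact P.asIdeal.mul_mem_left b h1
      exact (P.isPrime.mem_or_mem h5).resolve_left hm
    · intro ha
      by_cases ha0 : a = 0
      · rw [ha0, map_zero, zero_div]
        exact rp_zero
      obtain ⟨n, t, u, ht, hu, e⟩ := fac h1 h2 ha0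
      have hn : n ≠ 0 := by
        rintro rfl
        rw [pow_zero, one_mul] at e
        exact hu (by rw [← e]; exact P.asIdeal.mul_mem_left t ha)
      obtain ⟨k, rfl⟩ := Nat.exists_eq_succ_of_ne_zero hn
      refine ⟨t, ht, ϖ ^ k * u, ?_⟩
      rw [mul_div_assoc', ← map_mul, e, div_eq_iff hϖ, ← map_mul]
      congr 1
      rw [pow_succ]
      ring
  have hmem : ∀ x : K, x ∈ RP K P ∨ x⁻¹ ∈ RP K P := by
    intro x
    by_cases hx : x = 0
    · left
      rw [hx]
      exact rp_zero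
    obtain ⟨n, hn⟩ := val (K := K) h1 h2 hx
    rcases le_total 0 n with h | h
    · exact Or.inl (zmem h hn.2.1 hϖ)
    · right
      refine zmem (n := -n) (by omega) ?_ hϖ
      have h3 := hn.2.2
      rw [inv_div, div_eq_mul_inv, mul_comm] at h3
      rw [_root_.zpow_neg, div_inv_eq_mul]
      exact h3
  obtain ⟨O, hO⟩ : ∃ O : ValuationSubring K, (O : Set K) = RP K P :=
    ⟨{ carrier := RP K P
       mul_mem' := fun h h' => rp_mul h h'
       one_mem' := rp_one
       add_mem' := fun h h' => rp_add h h'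
       zero_mem' := rp_zero
       neg_mem' := fun {x} h => by
         have h3 := rp_mul (rp_alg (K := K) (P := P) (-1 : R)) h
         rwa [map_neg, map_one, neg_one_mul] at h3
       mem_or_inv_mem' := hmem }, rfl⟩
  have hO' : ∀ x : K, x ∈ O ↔ x ∈ RP K P := fun x => by rw [← hO]; rfl
  refine ⟨⟨O, hO, ⟨hϖ, (hO' _).2 (rp_alg ϖ), ?_, ?_⟩, ?_⟩, hdiv, ?_⟩
  · intro h
    have h3 := (hO' _).1 h
    rw [← one_div, ← map_one (algebraMap R K), hdiv] at h3
    exact P.isPrime.ne_top ((Ideal.eq_top_iff_one _).2 h3)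
  · intro z hz hzi
    rw [hO'] at hz hzi ⊢
    by_cases hz0 : z = 0
    · rw [hz0, zero_div]
      exact rp_zero
    obtain ⟨n, hn⟩ := val (K := K) h1 h2 hz0
    rcases le_or_gt n 0 with h | h
    · exfalso
      apply hzi
      refine zmem (n := -n) (by omega) ?_ hϖ
      have h3 := hn.2.2
      rw [inv_div, div_eq_mul_inv, mul_comm] at h3
      rw [_root_.zpow_neg, div_inv_eq_mul]
      exact h3
    · refine zmem (n := n - 1) (by omega) ?_ hϖ
      rw [div_div, ← zpow_one_add₀ hϖ]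
      have h4 : (1 : ℤ) + (n - 1) = n := by ring
      rw [h4]
      exact hn.2.1
  · intro x hx
    rw [hO]
    exact val h1 h2 hx
  · rintro x ⟨m, hm, b, hb⟩
    have hm0 : algebraMap R K m ≠ 0 := alg_ne fun h => hm (by rw [h]; exact P.asIdeal.zero_mem)
    have h3 : ∃ r : R, 1 - m * r ∈ P.asIdeal := by
      have h4 : IsCoprime (Ideal.span {m}) P.asIdeal := by
        rw [Ideal.isCoprime_iff_sup_eq]
        refine P.isMaximal.out.2 _ ?_
        refine lt_of_le_of_ne le_sup_right fun h => hm ?_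
        rw [h]
        exact Ideal.mem_sup_left (Ideal.mem_span_singleton_self m)
      rw [Ideal.isCoprime_iff_exists] at h4
      obtain ⟨i, hi, j, hj, hij⟩ := h4
      obtain ⟨r, rfl⟩ := Ideal.mem_span_singleton.1 hi
      refine ⟨r, ?_⟩
      rw [← hij, add_sub_cancel_left]
      exact hj
    obtain ⟨r, hr⟩ := h3
    refine ⟨r * b, ?_⟩
    have h5 : (x - algebraMap R K (r * b)) / algebraMap R K ϖ =
        (algebraMap R K m)⁻¹ * algebraMap R K b *
          (algebraMap R K (1 - m * r) / algebraMap R K ϖ) := by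
      have h6 : x = (algebraMap R K m)⁻¹ * algebraMap R K b := by
        rw [← hb, inv_mul_cancel_left₀ hm0]
      rw [h6, map_mul, map_sub, map_one, map_mul]
      field_simp
    rw [h5]
    exact rp_mul (rp_mul (rp_inv hm) (rp_alg b)) ((hdiv _).2 hr)

end Pool.T1
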